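import Pool.Agent.N929.EG.SzStm

/-!
# Project EG, part FSM: the sum over the vertices is additive in the occupied slots
-/

set_option autoImplicit false

namespace Pool.Agent.N82.EG

open Finset
open scoped Classical
open Pool.Agent.N929.EG

theorem sm_append {Ver V : Type} [AddCommGroup V] (f : Ver → V) (a b : List Ver) :
    sm f (a ++ b) = sm f a + sm f b := by
  unfold sm
  rw [List.map_append, List.sum_append]

theorem sm_rep {Ver : Type} {o : Ver} {A : Ver → Ver → Prop} {U U' w : List Ver}
    (h : Pair A U U') (hw : Walk o A w) (hf : Free U U' w) {V : Type} [AddCommGroup V]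
    (f : Ver → V) : sm f (rep w U U') = sm f w + (sm f U' - sm f U) := by
  obtain ⟨L, R, h1, h2, -, -, -⟩ := rep_all h hw hf
  have e : sm f w = sm f L + sm f U + sm f R := by rw [h1, sm_append, sm_append]
  rw [h2, sm_append, sm_append, e]
  abel

theorem fsm : S_FSM := by
  intro Ver X A Z Y hW L st fl hF V _ f w hE U
  induction U using Finset.induction_on with
  | empty =>
    intro _
    rw [hF.fl_empty w hE, Finset.sum_empty, add_zero]
  | insert q U hqU ih =>
    intro hsub
    have hU : U ⊆ Sl Y L w := fun x hx => hsub (Finset.mem_insert_of_mem hx)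
    have hq : q ∈ Sl Y L w := hsub (Finset.mem_insert_self q U)
    obtain ⟨h1, h2⟩ := hF.fl_insert w U q hE hU hq hqU
    obtain ⟨h3, h4⟩ := (hW.S _ _).1 h1
    obtain ⟨-, h5⟩ := (hW.K _ _).1 (hF.fl_K w U hE hU)
    have h2' : fl w (insert q U) = Y.ins (fl w U) q := by convert h2
    rw [h2', hW.ins, sm_rep (Z.pair _ _ h3) h5 h4, ih hU, Finset.sum_insert hqU]
    abel

end Pool.Agent.N82.EG
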